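import Pool.Agent.Helper86.Phil.Main

set_option autoImplicit false

/-!
# Philippon's conjecture: few exceptions suffice

`Ineq1 B α β ε x y` is Philippon's inequality for the pair `x, y`. `Bad B α β ε Y` is the set of the
rational numbers `y ≠ 0` of height at most `Y` for which the inequality fails for some `x ≠ 0` of
height at most `Y` (with `x y ^ B ≠ 1, -1`).

(1) If Q1 is false, then for ALL constants `B ≥ 1`, `α ≥ 1`, `β ≥ 0`, `0 ≤ ε < 1` and every
`θ < 2 (1 - ε) / (α B + 1)` there are arbitrarily large `Y` with at least `Y ^ θ` such numbers `y`.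

(2) Hence Q1 is true if and only if for some admissible constants and some
`θ < 2 (1 - ε) / (α B + 1)` there are fewer than `Y ^ θ` such `y` for all large `Y`.

Proof. If Q1 is false, then so is the weak abc conjecture (library, `WeakAbcEquivalence`), and there
are `a + b = c` with `c ≥ rad(abc) ^ M`, `M` arbitrarily large. Write `a / b = x₀ y₀ ^ B` with
`H(x₀) ≤ rad(abc) ^ B` and `H(y₀) ≤ c ^ (1 / B)`. For `t = u / v` with `H(t) ≤ c ^ τ`,
`τ < (1 - ε) / (B (α B + ε))`, the pair `x₀ t ^ B`, `y₀ / t` violates the inequality, both numbers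
have heights at most `c ^ (1 / B + τ)`, and there are at least `c ^ (2 τ) / 16` numbers `t`.
-/

namespace Pool.Agent.Results.MP_05f553_nt.FewExceptionsSuffice

open Pool.Agent.H78R2.Phil Pool.Agent.H78R2.Abc Pool.Agent.Helper86.Phil

/-- Q1 -/
def Philippon : Prop :=
  ∃ B : ℕ, 0 < B ∧ ∃ α β ε : ℝ, 1 ≤ α ∧ 0 ≤ β ∧ 0 < ε ∧ ε < 1 / 2 ∧
    ∀ x y : ℚ, x ≠ 0 → y ≠ 0 → x * y ^ B ≠ 1 → x * y ^ B ≠ -1 → Ineq1 B α β ε x y

theorem phil_iff : Philippon ↔ ∃ M : ℝ, WeakAbcEquivalence.WeakAbc M :=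
  Pool.Agent.Results.MP_05f553_nt.WeakAbcEquivalence.result.1.out 0 3

theorem two_le_rad {a b : ℕ} (ha : 0 < a) (hb : 0 < b) : 2 ≤ rad (a * b * (a + b)) := by
  have : ∃ p, p ∈ (a * b * (a + b)).primeFactors := by
    have : a * b * (a + b) ≠ 1 := by
      intro h3
      have : a + b ∣ 1 := by rw [← h3]; exact dvd_mul_left _ _
      have := Nat.le_of_dvd one_pos this
      omega
    obtain ⟨p, hp, hpd⟩ := Nat.exists_prime_and_dvd this
    exact ⟨p, Nat.mem_primeFactors.2 ⟨hp, hpd, by positivity⟩⟩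
  obtain ⟨p, hp⟩ := this
  have h3 : p ∣ rad (a * b * (a + b)) := Finset.dvd_prod_of_mem id hp
  have h4 : p ≤ rad (a * b * (a + b)) := Nat.le_of_dvd (rad_pos _) h3
  exact (Nat.prime_of_mem_primeFactors hp).two_le.trans h4

theorem main (h : ¬ Philippon) {B : ℕ} (hB : 0 < B) {α β ε θ : ℝ} (hα : 1 ≤ α) (hβ : 0 ≤ β)
    (hε : 0 ≤ ε) (hε1 : ε < 1) (hθ : θ < 2 * (1 - ε) / (α * B + 1)) (Y₀ : ℝ) :
    ∃ Y : ℝ, Y₀ ≤ Y ∧ Y ^ θ ≤ ((Bad B α β ε Y).ncard : ℝ) := by
  rw [phil_iff] at h
  push Not at h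
  have hB1 : (1 : ℝ) ≤ B := by exact_mod_cast hB
  have hB0 : (0 : ℝ) < B := by linarith
  have hα0 : 0 < α := by linarith
  have hαB : 1 ≤ α * B := by nlinarith
  set P : ℝ := B * (α * B + ε) with hP
  have hP1 : (B : ℝ) ^ 2 ≤ P := by rw [hP]; nlinarith
  have hP0 : 0 < P := by positivity
  set τ₀ : ℝ := (1 - ε) / P with hτ₀
  have hτ₀pos : 0 < τ₀ := div_pos (by linarith) hP0
  have hτ₀P : τ₀ * P = 1 - ε := div_mul_cancel₀ _ hP0.ne'
  have hτ₀B : τ₀ ≤ 1 / (B : ℝ) ^ 2 := by
    rw [hτ₀]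
    exact div_le_div₀ (by norm_num) (by linarith) (by positivity) hP1
  set D : ℝ := 2 * τ₀ - θ * (1 / B + τ₀) with hD
  have hDpos : 0 < D := by
    rw [lt_div_iff₀ (by linarith)] at hθ
    have h1 : D * P = 2 * (1 - ε) - θ * (α * B + 1) := by
      have e1 : (1 / (B : ℝ)) * P = α * B + ε := by rw [hP]; field_simp
      calc D * P = 2 * (τ₀ * P) - θ * (1 / B * P + τ₀ * P) := by rw [hD]; ring
        _ = _ := by rw [e1, hτ₀P]; ring
    have h2 : 0 < D * P := by rw [h1]; linarith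
    exact pos_of_mul_pos_left h2 hP0.le
  have hθ2 : θ < 2 := by
    refine hθ.trans_le ?_
    rw [div_le_iff₀ (by linarith)]
    nlinarith
  set η : ℝ := min (min 1 (τ₀ / 4)) (D / (4 * (2 - θ))) with hη
  have hηpos : 0 < η := lt_min (lt_min one_pos (by positivity)) (div_pos hDpos (by linarith))
  have hη1 : η ≤ 1 := (min_le_left _ _).trans (min_le_left _ _)
  have hητ : η ≤ τ₀ / 4 := (min_le_left _ _).trans (min_le_right _ _)
  have hηD : η * (4 * (2 - θ)) ≤ D := by
    have := min_le_right (min 1 (τ₀ / 4)) (D / (4 * (2 - θ)))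
    rw [← hη, le_div_iff₀ (by linarith)] at this
    exact this
  set τ : ℝ := τ₀ - 2 * η with hτ
  have hτpos : 0 < τ := by rw [hτ]; linarith
  set M : ℝ := (2 + 2 * β) / η + 2 * B * |Y₀| + 12 / D + 2 with hM
  have hM1 : 0 ≤ (2 + 2 * β) / η := by positivity
  have hM2 : 0 ≤ 2 * B * |Y₀| := by positivity
  have hM3 : 0 ≤ 12 / D := by positivity
  -- the abc triple
  have hM' := h M
  unfold WeakAbcEquivalence.WeakAbc at hM'
  push Not at hM'
  obtain ⟨a, b, ha, hb, hab, hc⟩ := hM'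
  have hrad2 := two_le_rad ha hb
  set R := rad (a * b * (a + b)) with hR
  have hc' : (R : ℝ) ^ M ≤ ((a + b : ℕ) : ℝ) := hc
  set L : ℝ := Real.log ((a + b : ℕ) : ℝ) with hL
  set ρ : ℝ := Real.log (R : ℝ) with hρ
  have hR2 : (2 : ℝ) ≤ R := by exact_mod_cast hrad2
  have hρ2 : 1 / 2 ≤ ρ := by
    have h4 : Real.log 2 ≤ ρ := Real.log_le_log (by norm_num) hR2
    have h5 := Real.log_two_gt_d9
    linarith
  have hMρ : M * ρ ≤ L := by
    rw [hρ, ← Real.log_rpow (by linarith)]
    exact Real.log_le_log (Real.rpow_pos_of_pos (by linarith) _) hc'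
  have hMpos : 2 ≤ M := by rw [hM]; linarith
  have hLM : M / 2 ≤ L := by
    have h1 : M * (1 / 2) ≤ M * ρ := mul_le_mul_of_nonneg_left hρ2 (by linarith)
    linarith
  have hLpos : 0 < L := by linarith
  have hne : a ≠ b := by
    intro hab1
    subst hab1
    have ha1 : a = 1 := (Nat.coprime_self a).1 hab
    have h1 : L = Real.log 2 := by rw [hL, ha1]; norm_num
    have h2 : ρ = Real.log 2 := by
      have : R = 2 := by
        rw [hR, ha1]
        show ∏ p ∈ (1 * 1 * (1 + 1) : ℕ).primeFactors, p = 2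
        norm_num [Nat.Prime.primeFactors Nat.prime_two]
      rw [hρ, this]; norm_num
    have h5 := Real.log_two_gt_d9
    rw [h1, h2] at hMρ
    have h6 : 2 * Real.log 2 ≤ M * Real.log 2 := mul_le_mul_of_nonneg_right hMpos (by linarith)
    linarith
  -- the numbers
  set n : ℕ := ⌊Real.exp (τ * L)⌋₊ with hn
  have hexp1 : 1 ≤ Real.exp (τ * L) := Real.one_le_exp (by positivity)
  have hn1 : 1 ≤ n := Nat.le_floor (by rw [Nat.cast_one]; exact hexp1)
  have hnle : (n : ℝ) ≤ Real.exp (τ * L) := Nat.floor_le (Real.exp_pos _).le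
  have hnge : Real.exp (τ * L) ≤ 2 * n := by
    have h1 := Nat.lt_floor_add_one (Real.exp (τ * L))
    rw [← hn] at h1
    have h2 : (1 : ℝ) ≤ n := by exact_mod_cast hn1
    linarith
  have hn0 : (0 : ℝ) < n := by exact_mod_cast hn1
  have hlogn : Real.log n ≤ τ * L := by
    rw [Real.log_le_iff_le_exp hn0]
    exact hnle
  have hρη : ρ * (2 + 2 * β) ≤ η * L := by
    have h1 : (2 + 2 * β) / η * ρ ≤ L := by
      refine le_trans ?_ hMρ
      refine mul_le_mul_of_nonneg_right ?_ (by linarith)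
      rw [hM]; linarith
    rw [div_mul_eq_mul_div, div_le_iff₀ hηpos] at h1
    linarith
  have hρη' : ρ ≤ η * L := by
    have h1 : 0 ≤ ρ * β := mul_nonneg (by linarith) hβ
    have h2 : ρ * (2 + 2 * β) = 2 * ρ + 2 * (ρ * β) := by ring
    linarith
  set Y : ℝ := Real.exp ((1 / B + τ) * L) with hY
  have hlogY : Real.log Y = (1 / B + τ) * L := Real.log_exp _
  have hcount := many hB hα hβ hε ha hb hab hne hn1 (Y := Y) (β := β) (ε := ε) ?_ ?_ ?_
    (Real.exp_pos _)
  · refine ⟨Y, ?_, ?_⟩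
    · have h1 : Y₀ ≤ L / B := by
        rw [le_div_iff₀ hB0]
        have h2 : B * |Y₀| ≤ L := by
          have : M / 2 ≥ B * |Y₀| := by rw [hM]; linarith
          linarith
        have h3 : Y₀ * B ≤ |Y₀| * B := mul_le_mul_of_nonneg_right (le_abs_self _) hB0.le
        linarith
      have h2 : L / B ≤ (1 / B + τ) * L := by
        have : (1 / B + τ) * L = L / B + τ * L := by ring
        rw [this]
        have : 0 ≤ τ * L := by positivity
        linarith
      have h3 := Real.add_one_le_exp ((1 / B + τ) * L)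
      rw [← hY] at h3
      linarith
    · refine le_trans ?_ hcount
      have h1 : Y ^ θ = Real.exp (θ * ((1 / B + τ) * L)) := by
        rw [hY, ← Real.exp_mul]; ring_nf
      rw [h1]
      have h2 : Real.exp (τ * L) ^ 2 / 16 ≤ (n : ℝ) ^ 2 / 4 := by
        have h3 : Real.exp (τ * L) ^ 2 ≤ (2 * n) ^ 2 := pow_le_pow_left₀ (Real.exp_pos _).le hnge 2
        have h4 : (2 * (n : ℝ)) ^ 2 = 4 * (n : ℝ) ^ 2 := by ring
        linarith
      refine le_trans ?_ h2
      rw [← Real.exp_nat_mul, le_div_iff₀ (by norm_num)]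
      have h3 : (16 : ℝ) ≤ Real.exp 3 := by
        have h4 := Real.exp_one_gt_d9
        have h5 : Real.exp 3 = Real.exp 1 ^ 3 := by rw [← Real.exp_nat_mul]; norm_num
        rw [h5]
        have : (2.7 : ℝ) ^ 3 ≤ Real.exp 1 ^ 3 := pow_le_pow_left₀ (by norm_num) (by linarith) 3
        norm_num at this ⊢
        linarith
      calc Real.exp (θ * ((1 / B + τ) * L)) * 16
          ≤ Real.exp (θ * ((1 / B + τ) * L)) * Real.exp 3 :=
            mul_le_mul_of_nonneg_left h3 (Real.exp_pos _).le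
        _ = Real.exp (θ * ((1 / B + τ) * L) + 3) := (Real.exp_add _ _).symm
        _ ≤ Real.exp ((2 : ℕ) * (τ * L)) := by
            apply Real.exp_le_exp.2
            have h4 : (2 * τ - θ * (1 / B + τ)) = D - 2 * η * (2 - θ) := by
              rw [hD, hτ]; ring
            have h5 : D / 2 ≤ 2 * τ - θ * (1 / B + τ) := by rw [h4]; linarith
            have h6 : 6 / D ≤ L := by
              have : 12 / D / 2 ≤ M / 2 := by rw [hM]; linarith
              have h7 : 12 / D / 2 = 6 / D := by ring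
              linarith
            have h7 : 3 ≤ D / 2 * L := by
              rw [div_le_iff₀ hDpos] at h6
              linarith
            have h8 : D / 2 * L ≤ (2 * τ - θ * (1 / B + τ)) * L :=
              mul_le_mul_of_nonneg_right h5 hLpos.le
            have h9 : (2 * τ - θ * (1 / B + τ)) * L = 2 * (τ * L) - θ * ((1 / B + τ) * L) := by
              ring
            push_cast
            linarith
  · -- the inequality is violated
    rw [← hP, ← hR, ← hρ, ← hL]
    have h1 : P * (τ * L) = (1 - ε) * L - 2 * η * P * L := by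
      have : P * τ = (1 - ε) - 2 * η * P := by rw [hτ, ← hτ₀P]; ring
      calc P * (τ * L) = (P * τ) * L := by ring
        _ = _ := by rw [this]; ring
    have h2 : P * Real.log n ≤ P * (τ * L) := mul_le_mul_of_nonneg_left hlogn hP0.le
    have h3 : 2 * ρ + β ≤ η * L := by
      have e1 : β * 1 ≤ β * (2 * ρ) := mul_le_mul_of_nonneg_left (by linarith) hβ
      have e2 : ρ * (2 + 2 * β) = 2 * ρ + β * (2 * ρ) := by ring
      linarith
    have h4 : P * (2 * ρ + β) ≤ P * (η * L) := mul_le_mul_of_nonneg_left h3 hP0.le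
    have h5 : 0 < P * (η * L) := by positivity
    have h6 : P * (Real.log n + 2 * ρ + β) = P * Real.log n + P * (2 * ρ + β) := by ring
    have h7 : 2 * η * P * L = 2 * (P * (η * L)) := by ring
    linarith
  · rw [hlogY, ← hR, ← hρ]
    have h1 : (B : ℝ) * (ρ + Real.log n) ≤ B * (η * L + τ * L) :=
      mul_le_mul_of_nonneg_left (add_le_add hρη' hlogn) hB0.le
    refine h1.trans ?_
    have h2 : (B : ℝ) * (η + τ) ≤ 1 / B + τ := by
      rcases Nat.lt_or_ge 1 B with h3 | h3
      · have hB2 : (2 : ℝ) ≤ B := by exact_mod_cast h3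
        have h4 : τ + 2 * η ≤ 1 / (B : ℝ) ^ 2 := by rw [hτ]; linarith
        have h5 : ((B : ℝ) - 1) * (τ + 2 * η) ≤ (B - 1) * (1 / (B : ℝ) ^ 2) :=
          mul_le_mul_of_nonneg_left h4 (by linarith)
        have h6 : ((B : ℝ) - 1) * (1 / (B : ℝ) ^ 2) ≤ 1 / B := by
          rw [mul_one_div, div_le_div_iff₀ (by positivity) hB0]
          have e0 : (B : ℝ) ^ 2 = B * B := sq _
          have e1 : ((B : ℝ) - 1) * B = B * B - B := by ring
          linarith
        have e1 : ((B : ℝ) - 1) * (τ + 2 * η) = B * τ - τ + 2 * (B - 1) * η := by ring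
        have e2 : (B : ℝ) * (η + τ) = B * η + B * τ := by ring
        have e3 : (B : ℝ) * η ≤ 2 * (B - 1) * η :=
          mul_le_mul_of_nonneg_right (by linarith) hηpos.le
        linarith
      · have hB1' : (B : ℝ) = 1 := by
          have : B = 1 := by omega
          rw [this]; norm_num
        rw [hB1']
        norm_num
        linarith
    calc (B : ℝ) * (η * L + τ * L) = (B * (η + τ)) * L := by ring
      _ ≤ (1 / B + τ) * L := mul_le_mul_of_nonneg_right h2 hLpos.le
  · rw [hlogY, ← hL]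
    have : (1 / B + τ) * L = L / B + τ * L := by ring
    rw [this]
    linarith

theorem result :
    -- (1) if Q1 fails then there are many exceptions for all constants
    (¬ Philippon → ∀ (B : ℕ) (α β ε θ : ℝ), 0 < B → 1 ≤ α → 0 ≤ β → 0 ≤ ε → ε < 1 →
      θ < 2 * (1 - ε) / (α * B + 1) →
      ∀ Y₀ : ℝ, ∃ Y : ℝ, Y₀ ≤ Y ∧ Y ^ θ ≤ ((Bad B α β ε Y).ncard : ℝ)) ∧
    -- (2) few exceptions suffice
    (Philippon ↔ ∃ (B : ℕ) (α β ε θ : ℝ), 0 < B ∧ 1 ≤ α ∧ 0 ≤ β ∧ 0 < ε ∧ ε < 1 / 2 ∧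
      θ < 2 * (1 - ε) / (α * B + 1) ∧
      ∃ Y₀ : ℝ, ∀ Y : ℝ, Y₀ ≤ Y → ((Bad B α β ε Y).ncard : ℝ) < Y ^ θ) := by
  refine ⟨fun h B α β ε θ hB hα hβ hε hε1 hθ Y₀ => main h hB hα hβ hε hε1 hθ Y₀, ?_, ?_⟩
  · rintro ⟨B, hB, α, β, ε, hα, hβ, hε, hε1, h⟩
    refine ⟨B, α, β, ε, 0, hB, hα, hβ, hε, hε1, ?_, 1, fun Y hY => ?_⟩
    · have : (0 : ℝ) < B := by exact_mod_cast hB
      have h1 : 0 < 1 - ε := by linarith
      positivity
    · have : Bad B α β ε Y = ∅ := by
        rw [Set.eq_empty_iff_forall_notMem]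
        rintro y ⟨h1, _, x, h2, _, h3, h4, h5⟩
        exact h5 (h x y h2 h1 h3 h4)
      rw [this, Set.ncard_empty, Real.rpow_zero]
      norm_num
  · rintro ⟨B, α, β, ε, θ, hB, hα, hβ, hε, hε1, hθ, Y₀, h⟩
    by_contra hcon
    obtain ⟨Y, h1, h2⟩ := main hcon hB hα hβ hε.le (by linarith) hθ Y₀
    exact absurd h2 (not_le.2 (h Y h1))

end Pool.Agent.Results.MP_05f553_nt.FewExceptionsSuffice
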